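import Pool.Agent.Helper27.CW.Main

/-!
# Constant distance code pairs over three letters: the exact value for all `δ` and all large `n`

`M3 n δ` is the largest product `|A| |B|` of an `(n, δ)` constant distance code pair over an
alphabet of three letters, and `F3 n δ` is Ahlswede's function `F_3(n, δ)`. We prove
`M3 n δ = F3 n δ = 2 ^ δ * C(n, δ)` for all `0 ≤ δ ≤ n` whenever `n ≥ 2 ^ 1200`; for smaller `n` the
same is proved under two explicit conditions (`δ / n` not too close to `2 / 3`, or `δ` small).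

Idea. Let `(A, B)` be a maximal pair, `p = δ / n`, and `T_p` the total weight of `A × B` for the kernel
`(1 - p on the diagonal, p / 2 off the diagonal)`.
(1) `[x ≠ y] = (x - y)²` in `ZMod 3`, so the spans of `A - A` and `B - B` are orthogonal: `A - A` lies in
the graph of a matrix `M` over a set `I` of coordinates. Entropy gives `T_p ≤ 1`, and, with the
inequalities coming from maximality, `T_p ≤ exp (- c (1 - 3p/2)² m)`, `m` the number of coordinates in
which neither code is constant.
(2) Away from `p = 2/3` a rigidity argument finishes the proof, also for small `δ`.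
(3) Near `p = 2/3`: four applications of Cauchy-Schwarz with a ninth root of unity (the fourth
difference of `[x ≠ 0]` on `ZMod 3` is `3 h₁ h₂ h₃ h₄` mod 9) bound `(|A| |B| / 3^n)^8` by the average of
the cubic character of a 4-linear form attached to `M`, which is at most `(19/27)^(rank M / 20)` by a
structure theorem for invertible matrices. So if `m` is small (but positive) the product is a constant
factor too small, and if `m` is of order `n` then the rank of `M` is `O(log n)`; then the words of `A`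
(or of `B`) satisfy two simultaneous distance constraints, and local limit estimates for binomial and
trinomial laws show that `T_p` is smaller than `c / √n`, a contradiction. Hence `m = 0` and
`|A| |B| ≤ 2 ^ δ C(n, δ)`.
-/

namespace Pool.Agent.Results.MP_990a44_co.TernaryAllLarge

open Helper27.CD

/-- `(A, B)` is an `(n, δ)` constant distance code pair over the alphabet `Fin 3`. -/
def IsPair (n δ : ℕ) (A B : Finset (Fin n → Fin 3)) : Prop :=
  ∀ a ∈ A, ∀ b ∈ B, hammingDist a b = δ

/-- `M_3(n, δ)`: the largest product `|A| |B|` of an `(n, δ)` constant distance code pair. -/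
noncomputable def M3 (n δ : ℕ) : ℕ :=
  sSup {k : ℕ | ∃ A B : Finset (Fin n → Fin 3), IsPair n δ A B ∧ A.card * B.card = k}

/-- Ahlswede's function `F_3(n, δ)`: the maximum of `2 ^ j * 18 ^ i * C(n - 3 i, j)` over
`2 i + j = δ` (the binomial coefficient is `0` if `n < 3 i`). -/
def F3 (n δ : ℕ) : ℕ :=
  (Finset.range (δ / 2 + 1)).sup (fun i =>
    if 3 * i ≤ n then 2 ^ (δ - 2 * i) * 18 ^ i * (n - 3 * i).choose (δ - 2 * i) else 0)

theorem M3_of_greatest (n δ : ℕ) (h : IsGreatest (prods n δ) (2 ^ δ * n.choose δ)) (hn : 10 ≤ n) :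
    M3 n δ = F3 n δ ∧ M3 n δ = 2 ^ δ * n.choose δ := by
  have h3 : M3 n δ = 2 ^ δ * n.choose δ := h.csSup_eq
  have h4 : F3 n δ = 2 ^ δ * n.choose δ := F3_eq n δ hn
  exact ⟨h3.trans h4.symm, h3⟩

/-- `M_3(n, δ) = F_3(n, δ) = 2^δ C(n, δ)` for all `0 ≤ δ ≤ n` with `n ≥ 2^1200`, and for `n < 2^1200` in
the range given by the other two conditions (`δ` small, or `δ / n` not too close to `2 / 3`). -/
theorem result : ∀ n δ : ℕ, δ ≤ n →
    (2 ^ 1200 ≤ n ∨ 4 * δ * (4 * δ + 2) ^ 8 ≤ n ∨
      65536 * (2 * (n : ℝ)) ^ 6 * Real.log (4 * δ + 2) ^ 2 ≤ δ * (3 * (δ : ℝ) - 2 * n) ^ 6) →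
    M3 n δ = F3 n δ ∧ M3 n δ = 2 ^ δ * n.choose δ := by
  intro n δ hδ hcond
  rcases Nat.eq_zero_or_pos δ with rfl | h0
  · have h3 : M3 n 0 = 2 ^ 0 * n.choose 0 :=
      (Helper27.CW.greatest_of_upper n 0 (Helper27.CW.zero_upper n)).csSup_eq
    have h4 : F3 n 0 = 2 ^ 0 * n.choose 0 := by simp [F3]
    exact ⟨h3.trans h4.symm, h3⟩
  rcases hcond with hn | hn | hK
  · refine M3_of_greatest n δ (Helper27.CW.greatest_of_upper n δ
      (Helper27.CW.all_upper n hn δ hδ)) (le_trans ?_ hn)
    calc 10 ≤ 2 ^ 4 := by norm_num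
      _ ≤ 2 ^ 1200 := Nat.pow_le_pow_right (by norm_num) (by norm_num)
  · refine M3_of_greatest n δ (Helper27.CW.greatest_of_upper n δ
      (Helper27.CW.small_upper n δ h0 hn)) (le_trans ?_ hn)
    have h2 : 6 ^ 8 ≤ (4 * δ + 2) ^ 8 := Nat.pow_le_pow_left (by omega) 8
    calc 10 ≤ 4 * 1 * 6 ^ 8 := by norm_num
      _ ≤ 4 * δ * (4 * δ + 2) ^ 8 := Nat.mul_le_mul (by omega) h2
  · exact M3_of_greatest n δ (greatest n δ h0 hδ hK) (big_of_cond n δ h0 hδ hK)

end Pool.Agent.Results.MP_990a44_co.TernaryAllLarge
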